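import Pool.Agent.P.MP_9c76b4_al.Sec

open Filter Topology

theorem Pool.Agent.Results.MP_9c76b4_al.CompleteKernel.result
    {G H : Type*} [Group G] [TopologicalSpace G] [IsTopologicalGroup G]
    [Group H] [TopologicalSpace H] [IsTopologicalGroup H]
    (f : G →* H) (_hf : Continuous f) (ho : IsOpenMap f) (hs : Function.Surjective f)
    (complete : ∀ Φ : Filter f.ker, Φ.NeBot →
      Tendsto (fun p : f.ker × f.ker => p.1⁻¹ * p.2) (Φ ×ˢ Φ) (𝓝 1) →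
      Tendsto (fun p : f.ker × f.ker => p.1 * p.2⁻¹) (Φ ×ˢ Φ) (𝓝 1) → ∃ k, Φ ≤ 𝓝 k)
    (feathered : ∃ C : Set f.ker, IsCompact C ∧ 1 ∈ C ∧ (𝓝ˢ C).IsCountablyGenerated) :
    ∃ s : H → G, (∀ h, f (s h) = h) ∧ ContinuousAt s 1 ∧ s 1 = 1 ∧
      ContinuousAt (fun p : H × H => s p.1 * s p.2 * (s (p.1 * p.2))⁻¹) (1, 1) ∧
      ∀ y : H, ContinuousAt (fun h : H => s y * s h * (s y)⁻¹ * (s (y * h * y⁻¹))⁻¹) 1 :=
  let ⟨s, a, b, c⟩ := Pool.Agent.P.MP_9c76b4_al.Sec.main f ho hs complete feathered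
  ⟨s, a, c, b, Pool.Agent.P.MP_9c76b4_al.Sec.quasi c⟩
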