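import Pool.Agent.P.MP_9c76b4_al.Main

theorem Pool.Agent.Results.MP_9c76b4_al.NoQuasiSection.result :
    ∃ (G H : Type) (_ : CommGroup G) (_ : CommGroup H)
      (_ : TopologicalSpace G) (_ : TopologicalSpace H),
      IsTopologicalGroup G ∧ IsTopologicalGroup H ∧ T2Space G ∧ T2Space H ∧
      ∃ f : G →* H, Continuous f ∧ IsOpenMap f ∧ Function.Surjective f ∧
        ∀ s : H → G, (∀ h, f (s h) = h) →
          ¬ (s 1 = 1 ∧
            ContinuousAt (fun p : H × H => s p.1 * s p.2 * (s (p.1 * p.2))⁻¹) (1, 1) ∧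
            ∀ y : H, ContinuousAt
              (fun h : H => s y * s h * (s y)⁻¹ * (s (y * h * y⁻¹))⁻¹) 1) :=
  Pool.Agent.P.MP_9c76b4_al.main
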