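import Pool.Agent.P.MP_9c76b4_al.Targ

universe u

theorem Pool.Agent.Results.MP_9c76b4_al.Targets.result
    (H : Type u) [Group H] [TopologicalSpace H] [IsTopologicalGroup H] :
    List.TFAE [
      ∀ (G : Type u) [Group G] [TopologicalSpace G] [IsTopologicalGroup G] (f : G →* H),
        Continuous f → IsOpenMap f → Function.Surjective f →
        ∃ s : H → G, (∀ h, f (s h) = h) ∧ s 1 = 1 ∧
          ContinuousAt (fun p : H × H => s p.1 * s p.2 * (s (p.1 * p.2))⁻¹) (1, 1) ∧
          ∀ y : H, ContinuousAt (fun h : H => s y * s h * (s y)⁻¹ * (s (y * h * y⁻¹))⁻¹) 1,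
      ∀ (G : Type u) [Group G] [TopologicalSpace G] [IsTopologicalGroup G] [T2Space G]
        (f : G →* H), Continuous f → IsOpenMap f → Function.Surjective f →
        ∃ s : H → G, (∀ h, f (s h) = h) ∧ s 1 = 1 ∧
          ContinuousAt (fun p : H × H => s p.1 * s p.2 * (s (p.1 * p.2))⁻¹) (1, 1) ∧
          ∀ y : H, ContinuousAt (fun h : H => s y * s h * (s y)⁻¹ * (s (y * h * y⁻¹))⁻¹) 1,
      DiscreteTopology H ∨ IsFreeGroup H] := by
  tfae_have 1 → 2 := fun h G _ _ _ _ => h G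
  tfae_have 2 → 3 := Pool.Agent.P.MP_9c76b4_al.Targ.forward
  tfae_have 3 → 1 := fun h G _ _ _ f _ _ => Pool.Agent.P.MP_9c76b4_al.Targ.backward h G f
  tfae_finish
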